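import Pool.Agent.U555.BD.Core

set_option autoImplicit false

open Finset
open scoped ENNReal

namespace Pool.Agent.Results.MP_c77635_an.NotSqueezed

/-- the (real or complex) Hilbert space `ℓ₂` -/
abbrev l2 (𝕜 : Type) [RCLike 𝕜] : Type := lp (fun _ : ℕ => 𝕜) 2

variable {𝕜 : Type} [RCLike 𝕜]

/-- `(x, xs)` is a basis of `ℓ₂` with its coordinate functionals: bounded sequences,
biorthogonal, dense linear span, and the functionals separate points. -/
structure IsBasis (x : ℕ → l2 𝕜) (xs : ℕ → l2 𝕜 →L[𝕜] 𝕜) : Prop where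
  bdd : ∃ B : ℝ, ∀ n, ‖x n‖ ≤ B ∧ ‖xs n‖ ≤ B
  biorth : ∀ n k, xs n (x k) = if n = k then 1 else 0
  dense : Dense ((Submodule.span 𝕜 (Set.range x) : Submodule 𝕜 (l2 𝕜)) : Set (l2 𝕜))
  total : ∀ f, (∀ n, xs n f = 0) → f = 0

/-- `φ_m φ*_m / m` is bounded: products of the norms of signed sums of at most `m` vectors `x n`
and of at most `m` functionals `xs n` are at most `C m`. -/
def Bidemocratic (x : ℕ → l2 𝕜) (xs : ℕ → l2 𝕜 →L[𝕜] 𝕜) : Prop :=
  ∃ C : ℝ, ∀ (m : ℕ) (A B : Finset ℕ) (ε δ : ℕ → 𝕜), A.card ≤ m → B.card ≤ m →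
    (∀ n ∈ A, ‖ε n‖ = 1) → (∀ n ∈ B, ‖δ n‖ = 1) →
    ‖∑ n ∈ A, ε n • x n‖ * ‖∑ n ∈ B, δ n • xs n‖ ≤ C * m

/-- non-increasing rearrangement: `rearr a m` is the `m`-th term (`m ≥ 1`) for `a ≥ 0` -/
noncomputable def rearr (a : ℕ → ℝ) (m : ℕ) : ℝ :=
  sInf {t : ℝ | 0 ≤ t ∧ {n | t < a n}.encard < m}

/-- the quasi-norm of the Lorentz space `ℓ_{2,s}` of a sequence `a ≥ 0`, possibly infinite -/
noncomputable def lorentz (s : ℝ) (a : ℕ → ℝ) : ℝ≥0∞ :=
  (∑' m : ℕ, ENNReal.ofReal (rearr a (m + 1) ^ s * ((m : ℝ) + 1) ^ (s / 2 - 1))) ^ (1 / s)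

/-- `ℓ_{2,q}` embeds in `ℓ₂` through the basis -/
def EmbedsLower (q : ℝ) (x : ℕ → l2 𝕜) : Prop :=
  ∃ C : ℝ, ∀ a : ℕ →₀ 𝕜,
    ENNReal.ofReal ‖a.sum fun n t => t • x n‖ ≤ ENNReal.ofReal C * lorentz q (fun n => ‖a n‖)

/-- `ℓ₂` embeds in `ℓ_{2,r}` through the coefficient functionals -/
def EmbedsUpper (r : ℝ) (xs : ℕ → l2 𝕜 →L[𝕜] 𝕜) : Prop :=
  ∃ C : ℝ, ∀ f : l2 𝕜, lorentz r (fun n => ‖xs n f‖) ≤ ENNReal.ofReal (C * ‖f‖)

open Pool.Agent.U555.BD

theorem rearr_le (a : ℕ → ℝ) (m : ℕ) (t : ℝ) (ht : 0 ≤ t) (h : {n | t < a n}.encard < m) :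
    rearr a m ≤ t :=
  csInf_le ⟨0, fun _ hx => hx.1⟩ ⟨ht, h⟩

theorem rearr_nonneg (a : ℕ → ℝ) (m : ℕ) : 0 ≤ rearr a m :=
  Real.sInf_nonneg (fun _ ht => ht.1)

theorem pow_aux (s : ℝ) (m : ℕ) :
    (1 / Real.sqrt ((m : ℝ) + 1)) ^ s * ((m : ℝ) + 1) ^ (s / 2 - 1) = 1 / ((m : ℝ) + 1) := by
  have h : (0 : ℝ) < (m : ℝ) + 1 := by positivity
  have h1 : 1 / Real.sqrt ((m : ℝ) + 1) = ((m : ℝ) + 1) ^ (-(1 / 2) : ℝ) := by
    rw [Real.sqrt_eq_rpow, one_div, ← Real.rpow_neg h.le]
  rw [h1, ← Real.rpow_mul h.le, ← Real.rpow_add h,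
    show -(1 / 2) * s + (s / 2 - 1) = -1 by ring, Real.rpow_neg_one, one_div]

/-- upper bound for the Lorentz norm of the vector `cc` on the block `b` -/
theorem lorentz_block_le (q : ℝ) (hq : 0 < q) (b : ℕ) (a : ℕ → ℝ)
    (ha : ∀ k, a k = if bl k = b then cc k else 0) :
    lorentz q a ≤ ENNReal.ofReal (HH b) ^ (1 / q) := by
  unfold lorentz
  apply ENNReal.rpow_le_rpow _ (by positivity)
  have hsub : ∀ t : ℝ, 0 ≤ t → ∀ M : ℕ, (∀ n : ℕ, n ≤ b → t < 1 / Real.sqrt ((n : ℝ) + 1) → n < M) →
      {k | t < a k}.encard ≤ M := by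
    intro t ht M hM
    have h1 : {k | t < a k} ⊆ ((range M).image (fun n => Nat.pair b n) : Finset ℕ) := by
      intro k hk
      rw [Set.mem_ofPred_eq, ha] at hk
      by_cases h : bl k = b
      · rw [if_pos h] at hk
        have h2 : rk k ≤ b := by
          by_contra h3
          have : cc k = 0 := by unfold cc; rw [if_neg (by omega)]
          rw [this] at hk
          linarith
        have h3 := hM (rk k) h2 (lt_of_lt_of_le hk (cc_le k))
        rw [Finset.mem_coe, Finset.mem_image]
        exact ⟨rk k, Finset.mem_range.2 h3, by rw [← h, pair_bl_rk]⟩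
      · rw [if_neg h] at hk
        linarith
    refine (Set.encard_le_encard h1).trans ?_
    rw [Set.encard_coe_eq_coe_finsetCard]
    have : ((range M).image (fun n => Nat.pair b n)).card ≤ M := by
      simpa using (Finset.card_image_le (s := range M) (f := fun n => Nat.pair b n))
    exact_mod_cast this
  have hterm : ∀ m : ℕ, rearr a (m + 1) ^ q * ((m : ℝ) + 1) ^ (q / 2 - 1) ≤
      if m ∈ range (b + 1) then 1 / ((m : ℝ) + 1) else 0 := by
    intro m
    by_cases hm : m ∈ range (b + 1)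
    · rw [if_pos hm, ← pow_aux q m]
      apply mul_le_mul_of_nonneg_right _ (by positivity)
      apply Real.rpow_le_rpow (rearr_nonneg _ _) _ hq.le
      apply rearr_le _ _ _ (by positivity)
      refine lt_of_le_of_lt (hsub _ (by positivity) m ?_) ?_
      · intro n _ hn
        have h2 := (one_div_lt_one_div (by positivity) (by positivity)).1 hn
        have h3 : (n : ℝ) + 1 < m + 1 := by
          by_contra h4
          push Not at h4
          exact absurd (Real.sqrt_le_sqrt h4) (not_le.2 h2)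
        have : (n : ℝ) < m := by linarith
        exact_mod_cast this
      · exact_mod_cast Nat.lt_succ_self m
    · rw [if_neg hm]
      have h0 : rearr a (m + 1) = 0 := by
        apply le_antisymm _ (rearr_nonneg _ _)
        apply rearr_le _ _ _ le_rfl
        refine lt_of_le_of_lt (hsub 0 le_rfl (b + 1) fun n hn _ => by omega) ?_
        rw [Finset.mem_range] at hm
        exact_mod_cast (by omega : b + 1 < m + 1)
      rw [h0, Real.zero_rpow hq.ne', zero_mul]
  have h1 : ∑' m : ℕ, ENNReal.ofReal (rearr a (m + 1) ^ q * ((m : ℝ) + 1) ^ (q / 2 - 1)) ≤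
      ∑' m : ℕ, ENNReal.ofReal (if m ∈ range (b + 1) then 1 / ((m : ℝ) + 1) else 0) :=
    ENNReal.tsum_le_tsum fun m => ENNReal.ofReal_le_ofReal (hterm m)
  refine h1.trans ?_
  rw [tsum_eq_sum (s := range (b + 1))]
  · rw [← ENNReal.ofReal_sum_of_nonneg]
    · apply ENNReal.ofReal_le_ofReal
      unfold HH
      apply le_of_eq
      exact Finset.sum_congr rfl fun m hm => if_pos hm
    · intro m hi
      rw [if_pos hi]
      positivity
  · intro m hm
    rw [if_neg hm, ENNReal.ofReal_zero]

/-- lower bound for the Lorentz norm of a bounded sequence which is at least `cc` on the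
block `b` -/
theorem lorentz_block_ge (r : ℝ) (hr : 0 < r) (b : ℕ) (a : ℕ → ℝ) (T : ℝ) (hT0 : 0 ≤ T)
    (hT : ∀ k, a k ≤ T) (ha : ∀ k, bl k = b → cc k ≤ a k) :
    ENNReal.ofReal (HH b) ^ (1 / r) ≤ lorentz r a := by
  unfold lorentz
  apply ENNReal.rpow_le_rpow _ (by positivity)
  have hterm : ∀ m ∈ range (b + 1), 1 / ((m : ℝ) + 1) ≤
      rearr a (m + 1) ^ r * ((m : ℝ) + 1) ^ (r / 2 - 1) := by
    intro m hm
    rw [← pow_aux r m]
    apply mul_le_mul_of_nonneg_right _ (by positivity)
    apply Real.rpow_le_rpow (by positivity) _ hr.le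
    have hne : {t : ℝ | 0 ≤ t ∧ {n | t < a n}.encard < ((m + 1 : ℕ) : ℕ∞)}.Nonempty := by
      refine ⟨T, hT0, ?_⟩
      have : {n | T < a n} = ∅ := by
        ext k
        simp only [Set.mem_ofPred_eq, Set.mem_empty_iff_false, iff_false, not_lt]
        exact hT k
      rw [this, Set.encard_empty]
      exact_mod_cast Nat.succ_pos m
    apply le_csInf hne
    rintro t ⟨ht, hcard⟩
    by_contra hlt
    push Not at hlt
    have h1 : (((range (m + 1)).image (fun n => Nat.pair b n) : Finset ℕ) : Set ℕ) ⊆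
        {n | t < a n} := by
      intro k hk
      rw [Finset.mem_coe, Finset.mem_image] at hk
      obtain ⟨n, hn, rfl⟩ := hk
      rw [Finset.mem_range] at hn hm
      rw [Set.mem_ofPred_eq]
      refine lt_of_lt_of_le (lt_of_lt_of_le hlt ?_) (ha _ (bl_pair b n))
      rw [cc_pair b n (Finset.mem_range.2 (by omega))]
      apply one_div_le_one_div_of_le (by positivity)
      apply Real.sqrt_le_sqrt
      have : (n : ℝ) ≤ m := by exact_mod_cast (by omega : n ≤ m)
      linarith
    have h2 := Set.encard_le_encard h1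
    rw [Set.encard_coe_eq_coe_finsetCard, Finset.card_image_of_injective, Finset.card_range] at h2
    · exact absurd hcard (not_lt.2 (by exact_mod_cast h2))
    · intro n n' h
      have := congrArg rk h
      simpa only [rk_pair] using this
  refine le_trans ?_ (ENNReal.sum_le_tsum (range (b + 1)))
  unfold HH
  rw [ENNReal.ofReal_sum_of_nonneg (fun m _ => by positivity)]
  exact Finset.sum_le_sum fun m hm => ENNReal.ofReal_le_ofReal (hterm m hm)

theorem HH_tendsto : Filter.Tendsto HH Filter.atTop Filter.atTop := by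
  have h := Real.tendsto_sum_range_one_div_nat_succ_atTop
  exact (h.comp (Filter.tendsto_add_atTop_nat 1))

/-- the parameters: even blocks are perturbed in one way, odd blocks in the dual way -/
noncomputable def al (b : ℕ) : ℝ := if Even b then 1 else -(1 / (1 + Real.sqrt (HH b)))

noncomputable def be (b : ℕ) : ℝ := if Even b then -(1 / (1 + Real.sqrt (HH b))) else 1

theorem al_le (b : ℕ) : |al b| ≤ 1 := by
  have h := sqrt_HH_pos b
  unfold al
  split_ifs
  · rw [abs_one]
  · rw [abs_neg, abs_of_pos (by positivity), div_le_one (by positivity)]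
    linarith

theorem be_le (b : ℕ) : |be b| ≤ 1 := by
  have h := sqrt_HH_pos b
  unfold be
  split_ifs
  · rw [abs_neg, abs_of_pos (by positivity), div_le_one (by positivity)]
    linarith
  · rw [abs_one]

theorem al_be (b : ℕ) : al b + be b + al b * be b * Real.sqrt (HH b) = 0 := by
  have h := sqrt_HH_pos b
  unfold al be
  split_ifs <;> field_simp <;> ring

theorem be_ne (b : ℕ) : 1 + be b * Real.sqrt (HH b) ≠ 0 := by
  have h := sqrt_HH_pos b
  intro h0
  have h1 := al_be b
  have h2 : (1 + al b * Real.sqrt (HH b)) * (1 + be b * Real.sqrt (HH b)) = 1 := by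
    linear_combination Real.sqrt (HH b) * h1
  rw [h0, mul_zero] at h2
  exact zero_ne_one h2

theorem al_ne (b : ℕ) : 1 + al b * Real.sqrt (HH b) ≠ 0 := by
  have h := sqrt_HH_pos b
  intro h0
  have h1 := al_be b
  have h2 : (1 + al b * Real.sqrt (HH b)) * (1 + be b * Real.sqrt (HH b)) = 1 := by
    linear_combination Real.sqrt (HH b) * h1
  rw [h0, zero_mul] at h2
  exact zero_ne_one h2


/-- The negated form of Q1, in a strong form: over both scalar fields there is a bidemocratic
basis of `ℓ₂` such that `ℓ_{2,q}` does not embed in `ℓ₂` through the basis for any `q > 1` and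
`ℓ₂` does not embed in `ℓ_{2,r}` for any finite `r`. -/
theorem result (𝕜 : Type) [RCLike 𝕜] : ∃ (x : ℕ → l2 𝕜) (xs : ℕ → l2 𝕜 →L[𝕜] 𝕜),
    IsBasis x xs ∧ Bidemocratic x xs ∧
    (∀ q : ℝ, 1 < q → ¬ EmbedsLower q x) ∧ (∀ r : ℝ, 0 < r → ¬ EmbedsUpper r xs) := by
  have hnorm : ∀ (α : ℕ → ℝ), (∀ b, |α b| ≤ 1) → ∀ k, ‖(X α k : L2 𝕜)‖ ≤ 3 := by
    intro α hα k
    have := upper α hα {k} (fun _ => (1 : 𝕜)) (fun _ _ => norm_one)
    simpa using this
  refine ⟨X al, fun n => innerSL 𝕜 (X be n), ⟨⟨3, fun n => ⟨hnorm al al_le n, ?_⟩⟩, ?_, ?_, ?_⟩,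
    ?_, ?_, ?_⟩
  · rw [innerSL_apply_norm]
    exact hnorm be be_le n
  · intro n k
    exact biorth al be al_be n k
  · have h : (Submodule.span 𝕜 (Set.range (X al : ℕ → L2 𝕜))).topologicalClosure = ⊤ := by
      rw [Submodule.topologicalClosure_eq_top_iff, Submodule.eq_bot_iff]
      intro f hf
      apply total al al_ne f
      intro k
      rw [Submodule.mem_orthogonal] at hf
      exact hf _ (Submodule.subset_span ⟨k, rfl⟩)
    exact Submodule.dense_iff_topologicalClosure_eq_top.2 h
  · intro f hf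
    exact total be be_ne f hf
  · refine ⟨9, fun m A B ε δ hA hB hε hδ => ?_⟩
    have h1 := upper al al_le A ε hε
    have h2 : ‖∑ n ∈ B, δ n • innerSL 𝕜 (X be n : L2 𝕜)‖ ≤ 3 * Real.sqrt B.card := by
      have h3 : ∑ n ∈ B, δ n • innerSL 𝕜 (X be n : L2 𝕜) =
          innerSL 𝕜 (∑ n ∈ B, (starRingEnd 𝕜 (δ n)) • (X be n : L2 𝕜)) := by
        rw [map_sum]
        apply Finset.sum_congr rfl
        intro n _
        rw [map_smulₛₗ, starRingEnd_self_apply]
      rw [h3, innerSL_apply_norm]
      exact upper be be_le B _ (fun n hn => by rw [RCLike.norm_conj, hδ n hn])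
    have h4 : Real.sqrt A.card ≤ Real.sqrt m := Real.sqrt_le_sqrt (by exact_mod_cast hA)
    have h5 : Real.sqrt B.card ≤ Real.sqrt m := Real.sqrt_le_sqrt (by exact_mod_cast hB)
    have h6 : Real.sqrt m * Real.sqrt m = m := Real.mul_self_sqrt (by positivity)
    calc ‖∑ n ∈ A, ε n • (X al n : L2 𝕜)‖ * ‖∑ n ∈ B, δ n • innerSL 𝕜 (X be n : L2 𝕜)‖
        ≤ (3 * Real.sqrt m) * (3 * Real.sqrt m) := by
          apply mul_le_mul (by linarith) (by linarith) (norm_nonneg _) (by positivity)
      _ = 9 * m := by linear_combination 9 * h6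
  · rintro q hq ⟨C, hC⟩
    have hq0 : 0 < q := by linarith
    have hexp : 0 < 1 - 1 / q := by
      rw [sub_pos, div_lt_one hq0]
      exact hq
    have key : ∀ b, Even b → HH b ^ (1 - 1 / q) ≤ max C 0 := by
      intro b hb
      have hH : 0 < HH b := lt_of_lt_of_le one_pos (HH_ge b)
      have hal : al b = 1 := by unfold al; rw [if_pos hb]
      -- the test vector
      set s : Finset ℕ := (range (b + 1)).image (fun n => Nat.pair b n) with hs
      set g : ℕ → 𝕜 := fun k => if bl k = b then ((cc k : ℝ) : 𝕜) else 0 with hg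
      have hgs : ∀ k, g k ≠ 0 → k ∈ s := by
        intro k hk
        simp only [hg] at hk
        by_cases h : bl k = b
        · rw [if_pos h] at hk
          rw [hs, Finset.mem_image]
          refine ⟨rk k, ?_, by rw [← h, pair_bl_rk]⟩
          rw [Finset.mem_range]
          by_contra h2
          apply hk
          unfold cc
          rw [if_neg (by omega), RCLike.ofReal_zero]
        · rw [if_neg h] at hk
          exact absurd rfl hk
      set a : ℕ →₀ 𝕜 := Finsupp.onFinset s g hgs with ha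
      have h1 := hC a
      have hsum : (a.sum fun n t => t • (X al n : L2 𝕜)) =
          ∑ n ∈ range (b + 1), ((cc (Nat.pair b n) : ℝ) : 𝕜) • (X al (Nat.pair b n) : L2 𝕜) := by
        rw [ha, Finsupp.onFinset_sum hgs (fun k => by rw [zero_smul]), hs, Finset.sum_image]
        · apply Finset.sum_congr rfl
          intro n _
          simp only [hg, bl_pair, if_true]
        · intro n _ n' _ h
          have := congrArg rk h
          simpa only [rk_pair] using this
      have hlow : HH b ≤ ‖a.sum fun n t => t • (X al n : L2 𝕜)‖ := by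
        rw [hsum]
        have h2 : inner 𝕜 (u b : L2 𝕜)
            (∑ n ∈ range (b + 1), ((cc (Nat.pair b n) : ℝ) : 𝕜) • (X al (Nat.pair b n) : L2 𝕜)) =
            ((HH b * (1 / Real.sqrt (HH b) + 1) : ℝ) : 𝕜) := by
          rw [inner_sum]
          have h3 : ∀ n ∈ range (b + 1), inner 𝕜 (u b : L2 𝕜)
              (((cc (Nat.pair b n) : ℝ) : 𝕜) • (X al (Nat.pair b n) : L2 𝕜)) =
              ((cc (Nat.pair b n) * cc (Nat.pair b n) * (1 / Real.sqrt (HH b) + 1) : ℝ) : 𝕜) := by
            intro n _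
            rw [inner_smul_right]
            unfold X
            rw [inner_add_right, inner_e_right, conj_u, inner_smul_right, inner_u_u, u_apply,
              bl_pair, if_pos rfl, if_pos rfl, hal]
            push_cast
            ring
          rw [Finset.sum_congr rfl h3, ← RCLike.ofReal_sum, ← Finset.sum_mul, sum_cc_sq]
        have h4 := norm_inner_le_norm (𝕜 := 𝕜) (u b : L2 𝕜)
          (∑ n ∈ range (b + 1), ((cc (Nat.pair b n) : ℝ) : 𝕜) • (X al (Nat.pair b n) : L2 𝕜))
        rw [h2, (orth_u (𝕜 := 𝕜)).1 b, one_mul, RCLike.norm_ofReal, abs_of_nonneg] at h4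
        · refine le_trans ?_ h4
          have h5 : 0 ≤ 1 / Real.sqrt (HH b) := by positivity
          nlinarith
        · have h5 : 0 ≤ 1 / Real.sqrt (HH b) := by positivity
          nlinarith
      have hup : lorentz q (fun n => ‖a n‖) ≤ ENNReal.ofReal (HH b) ^ (1 / q) := by
        apply lorentz_block_le q hq0 b
        intro k
        rw [ha, Finsupp.onFinset_apply]
        simp only [hg]
        split_ifs
        · rw [RCLike.norm_ofReal, abs_of_nonneg (cc_nonneg k)]
        · rw [norm_zero]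
      have h6 : ENNReal.ofReal (HH b) ≤ ENNReal.ofReal (max C 0 * HH b ^ (1 / q)) := by
        rw [ENNReal.ofReal_mul (le_max_right _ _),
          ← ENNReal.ofReal_rpow_of_pos hH]
        refine (ENNReal.ofReal_le_ofReal hlow).trans (h1.trans ?_)
        exact mul_le_mul' (ENNReal.ofReal_le_ofReal (le_max_left _ _)) hup
      rw [ENNReal.ofReal_le_ofReal_iff (by positivity)] at h6
      have h7 : HH b = HH b ^ (1 / q) * HH b ^ (1 - 1 / q) := by
        rw [← Real.rpow_add hH, show 1 / q + (1 - 1 / q) = 1 by ring, Real.rpow_one]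
      have h8 : 0 < HH b ^ (1 / q) := Real.rpow_pos_of_pos hH _
      by_contra hcon
      push Not at hcon
      have h9 : HH b ^ (1 / q) * max C 0 < HH b ^ (1 / q) * HH b ^ (1 - 1 / q) :=
        mul_lt_mul_of_pos_left hcon h8
      rw [← h7] at h9
      linarith
    have h1 := ((tendsto_rpow_atTop hexp).comp HH_tendsto).eventually
      (Filter.eventually_gt_atTop (max C 0))
    obtain ⟨b0, hb0⟩ := Filter.eventually_atTop.1 h1
    have h2 := hb0 (2 * b0) (by omega)
    have h3 := key (2 * b0) (even_two_mul b0)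
    exact absurd h3 (not_le.2 h2)
  · rintro r hr ⟨C, hC⟩
    have key : ∀ b, ¬ Even b → HH b ^ (1 / r) ≤ max C 0 := by
      intro b hb
      have hH : 0 < HH b := lt_of_lt_of_le one_pos (HH_ge b)
      have hbe : be b = 1 := by unfold be; rw [if_neg hb]
      have h1 := hC (u b)
      rw [(orth_u (𝕜 := 𝕜)).1 b, mul_one] at h1
      have hval : ∀ k, bl k = b → innerSL 𝕜 (X be k : L2 𝕜) (u b) =
          ((cc k * (1 / Real.sqrt (HH b) + 1) : ℝ) : 𝕜) := by
        intro k hk
        rw [innerSL_apply_apply, inner_X, inner_u_u, u_apply, if_pos hk, hk, if_pos rfl, hbe]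
        push_cast
        ring
      have h2 := lorentz_block_ge r hr b (fun n => ‖innerSL 𝕜 (X be n : L2 𝕜) (u b)‖) 3
        (by norm_num) (fun k => by
          refine (ContinuousLinearMap.le_opNorm _ _).trans ?_
          rw [innerSL_apply_norm, (orth_u (𝕜 := 𝕜)).1 b, mul_one]
          exact hnorm be be_le k) (fun k hk => by
          change cc k ≤ ‖innerSL 𝕜 (X be k : L2 𝕜) (u b)‖
          rw [hval k hk, RCLike.norm_ofReal, abs_of_nonneg]
          · have h5 : 0 ≤ 1 / Real.sqrt (HH b) := by positivity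
            have := cc_nonneg k
            nlinarith
          · have h5 : 0 ≤ 1 / Real.sqrt (HH b) := by positivity
            have := cc_nonneg k
            positivity)
      have h3 : ENNReal.ofReal (HH b ^ (1 / r)) ≤ ENNReal.ofReal (max C 0) := by
        rw [← ENNReal.ofReal_rpow_of_pos hH]
        exact h2.trans (h1.trans (ENNReal.ofReal_le_ofReal (le_max_left _ _)))
      rwa [ENNReal.ofReal_le_ofReal_iff (le_max_right _ _)] at h3
    have hexp : 0 < 1 / r := by positivity
    have h1 := ((tendsto_rpow_atTop hexp).comp HH_tendsto).eventually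
      (Filter.eventually_gt_atTop (max C 0))
    obtain ⟨b0, hb0⟩ := Filter.eventually_atTop.1 h1
    have h2 := hb0 (2 * b0 + 1) (by omega)
    have h3 := key (2 * b0 + 1) (by
      rw [Nat.not_even_iff_odd]
      exact odd_two_mul_add_one b0)
    exact absurd h3 (not_le.2 h2)

end Pool.Agent.Results.MP_c77635_an.NotSqueezed
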